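import Pool.Agent.helper9.HQ.Spec

set_option autoImplicit false

open scoped Classical

namespace Pool.Agent.helper9.HQ

open Finset
open Pool.Agent.helper65.HC (V IsEig IsTop lam)

theorem CM_S (s s' : ℝ) (h0 : 0 ≤ s) (h1 : s ≤ s') (h2 : s' ≤ 1) : cS s ≤ cS s' := by
  have hg' : 0 ≤ 4 * s' - 3 * s' ^ 2 := by nlinarith
  have hk : 3 * s' - 2 ≤ √(4 * s' - 3 * s' ^ 2) := by
    rcases le_or_gt s' (1 / 3) with h | h
    · have := Real.sqrt_nonneg (4 * s' - 3 * s' ^ 2)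
      linarith
    · apply Real.le_sqrt_of_sq_le
      nlinarith
  have hs : √(4 * s - 3 * s ^ 2) ≤ (s' - s) + √(4 * s' - 3 * s' ^ 2) := by
    apply Real.sqrt_le_iff.2
    have hn := Real.sqrt_nonneg (4 * s' - 3 * s' ^ 2)
    refine ⟨by linarith, ?_⟩
    have hsq := Real.sq_sqrt hg'
    nlinarith [mul_nonneg (sub_nonneg.2 h1) (by linarith : 0 ≤ √(4 * s' - 3 * s' ^ 2) - (3 * s' - 2)), mul_nonneg (sub_nonneg.2 h1) (sub_nonneg.2 h1)]
  unfold cS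
  linarith

theorem CM_C (t t' : ℝ) (h0 : 0 ≤ t) (h1 : t ≤ t') (h2 : t' ≤ 1) : cC t ≤ cC t' := by
  have hg' : 0 ≤ 1 - 4 * t' + 12 * t' ^ 2 := by nlinarith [sq_nonneg (t' - 1 / 6)]
  have hk : 1 - 4 * t' ≤ √(1 - 4 * t' + 12 * t' ^ 2) := by
    apply Real.le_sqrt_of_sq_le
    nlinarith
  have hs : √(1 - 4 * t + 12 * t ^ 2) ≤ 2 * (t' - t) + √(1 - 4 * t' + 12 * t' ^ 2) := by
    apply Real.sqrt_le_iff.2
    have hn := Real.sqrt_nonneg (1 - 4 * t' + 12 * t' ^ 2)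
    refine ⟨by linarith, ?_⟩
    have hsq := Real.sq_sqrt hg'
    nlinarith [mul_nonneg (sub_nonneg.2 h1) (by linarith : 0 ≤ √(1 - 4 * t' + 12 * t' ^ 2) - (1 - 4 * t')), mul_nonneg (sub_nonneg.2 h1) h0]
  unfold cC
  linarith

theorem CM_a (a b : ℝ) (h0 : 0 ≤ a) (h1 : a ≤ b) (h2 : b ≤ 1) :
    0 ≤ 1 - √(1 - a) ∧ 1 - √(1 - a) ≤ 1 - √(1 - b) ∧ 1 - √(1 - b) ≤ 1 ∧ 0 ≤ √a ∧ √a ≤ √b ∧ √b ≤ 1 := by
  refine ⟨?_, ?_, ?_, Real.sqrt_nonneg _, Real.sqrt_le_sqrt h1, ?_⟩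
  · have : √(1 - a) ≤ 1 := by
      rw [Real.sqrt_le_one]; linarith
    linarith
  · have : √(1 - b) ≤ √(1 - a) := Real.sqrt_le_sqrt (by linarith)
    linarith
  · have := Real.sqrt_nonneg (1 - b)
    linarith
  · rw [Real.sqrt_le_one]; exact h2

theorem CM : CM_stmt := by
  refine ⟨CM_S, CM_C, ?_, ?_⟩
  · intro a b h0 h1 h2
    obtain ⟨p1, p2, p3, p4, p5, p6⟩ := CM_a a b h0 h1 h2
    exact max_le_max (CM_S _ _ p1 p2 p3) (CM_C _ _ p4 p5 p6)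
  · intro a h0 h1
    obtain ⟨p1, p2, p3, p4, p5, p6⟩ := CM_a a a h0 le_rfl h1
    refine ⟨?_, ?_⟩
    · refine le_trans ?_ (le_max_left _ _)
      unfold cS
      have := Real.sqrt_nonneg (4 * (1 - √(1 - a)) - 3 * (1 - √(1 - a)) ^ 2)
      linarith
    · refine max_le ?_ ?_
      · refine (CM_S _ 1 p1 p3 le_rfl).trans ?_
        unfold cS
        norm_num
      · refine (CM_C _ 1 p4 p6 le_rfl).trans ?_
        unfold cC
        have : √(9 : ℝ) = 3 := by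
          rw [show (9 : ℝ) = 3 ^ 2 by norm_num]
          exact Real.sqrt_sq (by norm_num)
        norm_num [this]

end Pool.Agent.helper9.HQ
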