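import Pool.Agent.helper9.HQ.Spec

set_option autoImplicit false

open scoped Classical

namespace Pool.Agent.helper9.HQ

open Finset
open Pool.Agent.helper65.HC (V IsEig IsTop lam)

theorem FIN_pow (d : ℕ) : 1 + d + d.choose 2 ≤ 2 ^ d := by
  induction d with
  | zero => simp
  | succ d ih =>
    have h1 : (d + 1).choose 2 = d.choose 1 + d.choose 2 := rfl
    rw [Nat.choose_one_right] at h1
    have h2 : d < 2 ^ d := Nat.lt_two_pow_self
    rw [h1, pow_succ]
    omega

theorem FIN (hUB : UB_stmt) (hLBD : LBD_stmt) : FIN_stmt := by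
  intro eps heps
  obtain ⟨d1, h1⟩ := hUB (eps / 2) (by linarith)
  obtain ⟨d2, h2⟩ := hLBD (eps / 2) (by linarith)
  refine ⟨max d1 d2, ?_⟩
  intro d hd m hm1 hm2
  have hG := Pool.Agent.helper65.HC.lam_isGreatest d m (by omega) (hm2.trans (FIN_pow d))
  refine ⟨?_, hG⟩
  obtain ⟨U, hU, ht⟩ := hG.1
  have hub := h1 d (le_trans (le_max_left _ _) hd) U (lam d m) (by rw [hU]; exact hm2) ht
  rw [hU] at hub
  obtain ⟨U', hU', hl⟩ := h2 d (le_trans (le_max_right _ _) hd) m hm1 hm2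
  obtain ⟨t', ht'⟩ := Pool.Agent.helper65.HC.isTop_exists U' (by
    rw [← Finset.card_pos]; omega)
  obtain ⟨h0, hlo⟩ := hl t' ht'
  have hle : t' ≤ lam d m := hG.2 ⟨U', hU', ht'⟩
  have hsq : t' ^ 2 / d ≤ lam d m ^ 2 / d := by
    gcongr
  rw [abs_lt]
  constructor <;> linarith

end Pool.Agent.helper9.HQ
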