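import Pool.Agent.helper9.HQ.Spec

set_option autoImplicit false

open scoped Classical

namespace Pool.Agent.helper9.HQ

open Finset
open Pool.Agent.helper65.HC (V IsEig IsTop lam)

theorem TYP_seg {n : ℕ} (S : Finset (Fin (n + 1))) (hS : ∀ i j : Fin (n + 1), i ≤ j → j ∈ S → i ∈ S) (j : Fin (n + 1)) :
    j ∈ S ↔ (j : ℕ) < S.card := by
  constructor
  · intro hj
    have h1 : Finset.Iic j ⊆ S := by
      intro i hi
      exact hS i j (Finset.mem_Iic.1 hi) hj
    have h2 := Finset.card_le_card h1
    rw [Fin.card_Iic] at h2
    omega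
  · intro hj
    by_contra hn
    have h1 : S ⊆ Finset.Iio j := by
      intro i hi
      rw [Finset.mem_Iio]
      by_contra hij
      exact hn (hS j i (not_lt.1 hij) hi)
    have h2 := Finset.card_le_card h1
    rw [Fin.card_Iio] at h2
    omega

theorem TYP : TYP_stmt := by
  intro n W hW htw
  set D : Fin (n + 1) → ℕ := fun i => (univ.filter fun j => W i j).card with hD
  have hWD : ∀ i j : Fin (n + 1), W i j ↔ (j : ℕ) < D i := by
    intro i j
    have h := TYP_seg (univ.filter fun j => W i j) (by
      intro a b hab hb
      simp only [mem_filter, mem_univ, true_and] at hb ⊢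
      exact hW.mono i b i a hb le_rfl hab) j
    simpa using h
  have hanti : ∀ i : Fin n, D i.succ + 1 ≤ D i.castSucc := by
    intro i
    have hle : D i.succ ≤ D i.castSucc := by
      apply Finset.card_le_card
      intro j hj
      simp only [mem_filter, mem_univ, true_and] at hj ⊢
      exact hW.mono _ _ _ _ hj (Fin.castSucc_lt_succ (i := i)).le le_rfl
    by_contra hlt
    have heq : D i.succ = D i.castSucc := by omega
    apply htw i
    intro j
    rw [hWD, hWD, heq]
  have hch : ∀ (k : ℕ) (i : ℕ) (h : i + k < n + 1), D ⟨i + k, h⟩ + k ≤ D ⟨i, by omega⟩ := by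
    intro k
    induction k with
    | zero => intro i h; simp
    | succ k ih =>
      intro i h
      have h1 := ih i (by omega)
      have h2 := hanti ⟨i + k, by omega⟩
      have e1 : (⟨i + k, by omega⟩ : Fin n).succ = ⟨i + (k + 1), h⟩ := by
        apply Fin.ext; simp; omega
      have e2 : (⟨i + k, by omega⟩ : Fin n).castSucc = ⟨i + k, by omega⟩ := by
        apply Fin.ext; simp
      rw [e1, e2] at h2
      omega
  have hup : ∀ i : Fin (n + 1), D i + i ≤ D 0 := by
    intro i
    have h := hch i 0 (by omega)
    have e1 : (⟨0 + (i : ℕ), by omega⟩ : Fin (n + 1)) = i := by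
      apply Fin.ext; simp
    have e2 : (⟨0, by omega⟩ : Fin (n + 1)) = 0 := rfl
    rw [e1, e2] at h
    exact h
  have hlo : ∀ i : Fin (n + 1), D (Fin.last n) + (n - i) ≤ D i := by
    intro i
    have h := hch (n - i) i (by omega)
    have e1 : (⟨(i : ℕ) + (n - i), by omega⟩ : Fin (n + 1)) = Fin.last n := by
      apply Fin.ext; simp; omega
    rw [e1] at h
    exact h
  have hD0 : D 0 ≤ n + 1 := by
    have h := Finset.card_le_univ (univ.filter fun j => W 0 j)
    simpa using h
  rcases Nat.lt_or_ge n (D 0) with h0 | h0
  · left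
    have hlast : 1 ≤ D (Fin.last n) := by
      have h1 : W 0 (Fin.last n) := by
        rw [hWD]; simpa using h0
      have h2 := hW.symm _ _ h1
      rw [hWD] at h2
      simp at h2
      omega
    intro i j
    rw [hWD]
    unfold Wt
    have h1 := hup i
    have h2 := hlo i
    omega
  · right
    intro i j
    rw [hWD]
    unfold Wt
    have h1 := hup i
    have h2 := hlo i
    omega

end Pool.Agent.helper9.HQ
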